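import Pool.Agent.H90.ZT.Gsm

/-!
# One-counter languages with zero tests and inverse rational functions

Question Q1 asks if the family `Roc` of the restricted one-counter languages is G-principal: is there
`L` in `Roc` such that every language of `Roc` is an inverse image of `L` under an a-gsm mapping? The
answer is no (library, `RocNotGPrincipal`): if `L` is accepted by an automaton with `s` states, then
the bounded language `K m = {a ^ n c ^ (i n) | n ≥ 0, 1 ≤ i ≤ m}`, which belongs to `Roc`, is no such
inverse image for `m > s ^ 2`.

Here the question is answered in a stronger form in three directions.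

* `L` can be accepted by a one-counter automaton with zero tests (`ZeroTest`, `Ocl`), so that it belongs
  to the full AFL generated by `Roc`; `K m` needs no zero tests, its automaton only turns once.
* The inverse images are those under all rational functions instead of the a-gsm mappings (sequential
  functions): `R L` is the smallest family which contains `L` and is closed under the inverses of
  the subsequential functions from left to right and from right to left. By a theorem of Elgot and
  Mezei their compositions are all (partial) rational functions. This is sharp in the following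
  sense: every language of `Roc` is the inverse image of one language under a rational transduction
  (a multivalued rational function), as `Roc` is a principal full trio.
* Unions of `k` such languages for a fixed number `k` are allowed, which includes the inverse images
  under the `k`-valued rational transductions (these are unions of `k` rational functions by a theorem
  of Weber and Schützenberger). The bound is `m ≤ s_1 ^ 2 + ⋯ + s_k ^ 2`, where the numbers `s_j` of
  states are arbitrary, and the alphabets, the transitions and the functions do not matter.

The three theorems cited in these comments are not used.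

*Proof.* A composition of subsequential functions from both sides maps the words
`a ^ (n (x + 1)) c ^ (n (y + 1))`, for a suitable `n`, to the words `β0 α ^ x β1 γ ^ y β2`. If the words
accepted by the automaton lie on finitely many lines of positive slope in the plane of the `(x, y)`,
then, on the words on a given line, the last part before `β1` without zero tests must become long
(otherwise two computations could be crossed, and `x` would be changed for fixed `y`), and so must the
first part after `β1` up to the next zero of the counter. Then there are an ascending cycle in the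
state `p` on a power of `α`, and a later descending cycle in the state `r` on a power of `γ`, and no
zero test in between; the pair `(p, r)` determines the slope, as cycles for two slopes could be mixed.
-/

set_option autoImplicit false

namespace Pool.Agent.Results.MP_773080_lc.ZeroTests

open Pool.Agent.Results.MP_773080_lc.RocNotGPrincipal Pool.Agent.H90.ZT

/-- `N` is the union of `k` languages of `R L`. -/
def UnionOf (k : ℕ) {Y : Type} [Finite Y] (L : Language Y) {X : Type} [Finite X]
    (N : Language X) : Prop :=
  ∃ N' : Fin k → Language X, (∀ j, R L X (N' j)) ∧ ∀ w, w ∈ N ↔ ∃ j, w ∈ N' j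

/-- **Theorem.** (1) If `K m` is the union of languages `N j`, `j < k`, where `N j` is an inverse image
(as above) of a language accepted by a one-counter automaton with zero tests and `s_j` states, then
`m ≤ s_1 ^ 2 + ⋯ + s_k ^ 2`.

(2) All `K m` belong to `Roc`, and `Roc` is contained in `Ocl`.

(3) Let `F` be any family of one-counter languages (with zero tests) which contains all `K m`. For all
`L` in `F` and all `k` some language `K m` is not the union of `k` languages of `R L`. In particular
`F` is not G-principal.

(4) `Roc` is not G-principal (Q1), and `Ocl` is not G-principal. -/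
theorem result :
    (∀ (k : ℕ) (Y : Fin k → Type) [∀ j, Finite (Y j)] (Z : ∀ j, ZeroTest (Y j))
      (N : Fin k → Language Bool), (∀ j, R (Z j).language Bool (N j)) → ∀ m : ℕ,
        (∀ w, w ∈ K m ↔ ∃ j, w ∈ N j) → m ≤ ∑ j, Nat.card (Z j).base.State ^ 2) ∧
    ((∀ m, Roc Bool (K m)) ∧ ∀ (X : Type) [Finite X] (L : Language X), Roc X L → Ocl X L) ∧
    (∀ F : Family, (∀ m, F Bool (K m)) →
      (∀ (X : Type) [Finite X] (L : Language X), F X L → Ocl X L) →
      (∀ (Y : Type) [Finite Y] (L : Language Y), F Y L → ∀ k, ∃ m, ¬ UnionOf k L (K m)) ∧
        ¬ GPrincipal F) ∧
    ¬ GPrincipal Roc ∧ ¬ GPrincipal Ocl := by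
  have h1 : ∀ (k : ℕ) (Y : Fin k → Type) [∀ j, Finite (Y j)] (Z : ∀ j, ZeroTest (Y j))
      (N : Fin k → Language Bool), (∀ j, R (Z j).language Bool (N j)) → ∀ m : ℕ,
        (∀ w, w ∈ K m ↔ ∃ j, w ∈ N j) → m ≤ ∑ j, Nat.card (Z j).base.State ^ 2 :=
    fun k Y _ Z N hN m hK => union_bound Y Z N hN m hK
  have h2 : ∀ (X : Type) [Finite X] (L : Language X), Roc X L → Ocl X L :=
    fun X _ L hL => ocl_of_roc hL
  have h3 : ∀ F : Family, (∀ m, F Bool (K m)) →
      (∀ (X : Type) [Finite X] (L : Language X), F X L → Ocl X L) →
      (∀ (Y : Type) [Finite Y] (L : Language Y), F Y L → ∀ k, ∃ m, ¬ UnionOf k L (K m)) ∧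
        ¬ GPrincipal F := by
    intro F hK hF
    have h4 : ∀ (Y : Type) [Finite Y] (L : Language Y), F Y L → ∀ k, ∃ m,
        ¬ UnionOf k L (K m) := by
      intro Y _ L hL k
      obtain ⟨Z, rfl⟩ := hF Y L hL
      refine ⟨k * Nat.card Z.base.State ^ 2 + 1, ?_⟩
      rintro ⟨N, hN, hw⟩
      have h5 := h1 k (fun _ => Y) (fun _ => Z) N hN _ hw
      rw [Finset.sum_const, Finset.card_univ, Fintype.card_fin, smul_eq_mul] at h5
      omega
    refine ⟨h4, ?_⟩
    rintro ⟨Y, _, L, hL, h5⟩
    obtain ⟨m, h6⟩ := h4 Y L hL 1
    exact h6 ⟨fun _ => K m, fun _ => r_of_g ((h5 Bool _).1 (hK m)), fun w =>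
      ⟨fun h => ⟨0, h⟩, fun ⟨_, h⟩ => h⟩⟩
  exact ⟨h1, ⟨roc_K, h2⟩, h3, (h3 Roc roc_K h2).2,
    (h3 Ocl (fun m => h2 _ _ (roc_K m)) (fun _ _ _ h => h)).2⟩

end Pool.Agent.Results.MP_773080_lc.ZeroTests
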